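import Pool.Agent.H69.LQ.Lib

/-!
# The row PR: orthogonal projection on the polynomials of degree at most `D`
-/

set_option autoImplicit false

open MeasureTheory Metric Set
open scoped ENNReal
open Pool.Agent.H85.LK (E adm lam Ann)
open Pool.Agent.H69.LQ

namespace Pool.Agent.H16.LQ

theorem represent {W : Type*} [AddCommGroup W] [Module ℝ W] [FiniteDimensional ℝ W]
    (B : W →ₗ[ℝ] Module.Dual ℝ W) (hsym : ∀ P Q, B P Q = B Q P) (l : Module.Dual ℝ W)
    (h : ∀ Q, B Q Q = 0 → l Q = 0) : ∃ P, B P = l := by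
  have h1 : l ∈ (LinearMap.ker B).dualAnnihilator := by
    rw [Submodule.mem_dualAnnihilator]
    intro Q hQ
    rw [LinearMap.mem_ker] at hQ
    refine h Q ?_
    rw [hQ]
    rfl
  rw [← LinearMap.range_dualMap_eq_dualAnnihilator_ker] at h1
  obtain ⟨ψ, hψ⟩ := h1
  refine ⟨(Module.evalEquiv ℝ W).symm ψ, ?_⟩
  refine LinearMap.ext fun Q => ?_
  rw [hsym, ← hψ, LinearMap.dualMap_apply]
  exact Module.apply_evalEquiv_symm_apply ℝ W (B Q) ψ

theorem finite_restrict (N D : ℕ) :
    Module.Finite ℝ (MvPolynomial.restrictTotalDegree (Fin N) ℝ D) := by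
  have h1 : Finite {n : Fin N →₀ ℕ | (n.sum fun _ e => e) ≤ D} := by
    refine Set.Finite.to_subtype ?_
    refine (Finsupp.finite_of_degree_le (σ := Fin N) D).subset ?_
    intro n hn
    exact hn
  exact Module.Finite.of_basis
    (MvPolynomial.basisRestrictSupport ℝ {n : Fin N →₀ ℕ | (n.sum fun _ e => e) ≤ D})

section

variable {N : ℕ}

theorem ev_cont (P : MvPolynomial (Fin N) ℝ) : Continuous fun θ : Sp N => ev P (θ : E N) := by
  unfold ev
  refine (MvPolynomial.continuous_eval P).comp ?_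
  refine continuous_pi fun i => ?_
  exact ((EuclideanSpace.proj i).continuous).comp continuous_subtype_val

theorem ev_bm (P : MvPolynomial (Fin N) ℝ) : BM fun θ : Sp N => ev P (θ : E N) :=
  BM_cont (ev_cont P)

theorem ev_add (P Q : MvPolynomial (Fin N) ℝ) (x : E N) : ev (P + Q) x = ev P x + ev Q x :=
  map_add _ _ _

theorem ev_smul (c : ℝ) (P : MvPolynomial (Fin N) ℝ) (x : E N) : ev (c • P) x = c * ev P x := by
  unfold ev
  rw [MvPolynomial.smul_eval]

/-- the scalar product -/
noncomputable def bil (N D : ℕ) : (MvPolynomial.restrictTotalDegree (Fin N) ℝ D) →ₗ[ℝ]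
    Module.Dual ℝ (MvPolynomial.restrictTotalDegree (Fin N) ℝ D) :=
  LinearMap.mk₂ ℝ (fun P Q => av fun θ : Sp N => ev P.1 (θ : E N) * ev Q.1 (θ : E N))
    (fun P P' Q => by
      rw [← av_add ((ev_bm P.1).mul (ev_bm Q.1)) ((ev_bm P'.1).mul (ev_bm Q.1))]
      congr 1
      funext θ
      rw [Submodule.coe_add, ev_add]
      ring)
    (fun c P Q => by
      rw [smul_eq_mul, ← av_const_mul]
      congr 1
      funext θ
      rw [Submodule.coe_smul, ev_smul]
      ring)
    (fun P Q Q' => by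
      rw [← av_add ((ev_bm P.1).mul (ev_bm Q.1)) ((ev_bm P.1).mul (ev_bm Q'.1))]
      congr 1
      funext θ
      rw [Submodule.coe_add, ev_add]
      ring)
    (fun c P Q => by
      rw [smul_eq_mul, ← av_const_mul]
      congr 1
      funext θ
      rw [Submodule.coe_smul, ev_smul]
      ring)

/-- the functional -/
noncomputable def fun_ (D : ℕ) (f : Sp N → ℝ) (hf : BM f) :
    Module.Dual ℝ (MvPolynomial.restrictTotalDegree (Fin N) ℝ D) where
  toFun Q := av fun θ : Sp N => f θ * ev Q.1 (θ : E N)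
  map_add' Q Q' := by
    rw [← av_add (hf.mul (ev_bm Q.1)) (hf.mul (ev_bm Q'.1))]
    congr 1
    funext θ
    rw [Submodule.coe_add, ev_add]
    ring
  map_smul' c Q := by
    rw [RingHom.id_apply, smul_eq_mul, ← av_const_mul]
    congr 1
    funext θ
    rw [Submodule.coe_smul, ev_smul]
    ring

end

theorem pf_PR (_hMP : T_MP) : T_PR := by
  intro N D f _ hf
  have := finite_restrict N D
  obtain ⟨P, hP⟩ := represent (bil N D)
    (fun P Q => by
      change av _ = av _
      congr 1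
      funext θ
      ring)
    (fun_ D f hf)
    (fun Q hQ => by
      change av (fun θ : Sp N => f θ * ev Q.1 (θ : E N)) = 0
      have h1 : av (fun θ : Sp N => ev Q.1 (θ : E N) * ev Q.1 (θ : E N)) = 0 := hQ
      have h2 := av_cs hf (ev_bm Q.1)
      have h3 : av (fun θ : Sp N => ev Q.1 (θ : E N) ^ 2) = 0 := by
        rw [← h1]
        congr 1
        funext θ
        ring
      rw [h3, mul_zero] at h2
      have h4 := sq_nonneg (av fun θ : Sp N => f θ * ev Q.1 (θ : E N))
      exact pow_eq_zero_iff (two_ne_zero) |>.1 (le_antisymm h2 h4))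
  refine ⟨P.1, MvPolynomial.mem_restrictTotalDegree (Fin N) D P.1 |>.1 P.2, fun Q hQ => ?_⟩
  have h1 : bil N D P ⟨Q, MvPolynomial.mem_restrictTotalDegree (Fin N) D Q |>.2 hQ⟩ =
      fun_ D f hf ⟨Q, MvPolynomial.mem_restrictTotalDegree (Fin N) D Q |>.2 hQ⟩ := by rw [hP]
  have h2 : av (fun θ : Sp N => ev P.1 (θ : E N) * ev Q (θ : E N)) =
      av (fun θ : Sp N => f θ * ev Q (θ : E N)) := h1
  have h3 : av (fun θ : Sp N => (f θ - ev P.1 (θ : E N)) * ev Q (θ : E N)) =
      av (fun θ : Sp N => f θ * ev Q (θ : E N)) -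
      av (fun θ : Sp N => ev P.1 (θ : E N) * ev Q (θ : E N)) := by
    rw [← av_sub (hf.mul (ev_bm Q)) ((ev_bm P.1).mul (ev_bm Q))]
    congr 1
    funext θ
    ring
  rw [h3, h2, sub_self]

end Pool.Agent.H16.LQ
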